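import Pool.Agent.H458.AR.Coh
import Pool.Graph.R_pool_sql_team_seeded_63374d34.N630.PP.GP
import Pool.Graph.R_pool_sql_team_seeded_63374d34.N187.PP.GB
import Pool.Graph.R_pool_sql_team_seeded_63374d34.N187.PP.GN
import Pool.Graph.R_pool_sql_team_seeded_63374d34.N42.QM.Glf
import Pool.Graph.R_pool_sql_team_seeded_63374d34.N530.QM.Farc

/-!
# Project AR (helper458), part CA: from Selmer cocycles to polynomials (helper415)
-/

set_option autoImplicit false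
set_option linter.all false

open IsDedekindDomain NumberField Polynomial
open scoped Classical

namespace Pool.Agent.H415.AR458

open Pool.Agent.H458.AR
open Pool.Agent.N922.PQ
open Pool.Agent.N874.PP (sW IsBeta sg Rt rr)
open Pool.Agent.N874.PM (PLoc)
open Pool.Agent.N874.QM (IsLoc)
open Pool.Agent.TH115.GD (Pt act rs IsCoc LocTriv Comp Sep)

theorem ca : Pool.Agent.H458.AR.S_CA := by
  intro A B hd hirr f hf
  have h6 : (6 : ℚ) ≠ 0 := by norm_num
  have hgp1 := Pool.Agent.N630.PP.gp1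
  have hgp2 := Pool.Agent.N630.PP.gp2
  have hgp3 := Pool.Agent.N630.PP.gp3
  have hgp4 := Pool.Agent.N630.PP.gp4
  have hGLF := Pool.Agent.N42.QM.glf hgp1 hgp2 hgp3 hgp4
  have hFARC := Pool.Agent.N530.QM.farc
  have hFARR := Pool.Agent.N42.QM.farr
  haveI : Fact (Irreducible (X ^ 3 + C A * X + C B : ℚ[X])) := ⟨hirr⟩
  have hdeg : (X ^ 3 + C A * X + C B : ℚ[X]).natDegree = 3 := by compute_degree!
  have ht : Rt A B (AdjoinRoot.root (X ^ 3 + C A * X + C B : ℚ[X])) := by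
    have h1 := AdjoinRoot.eval₂_root (X ^ 3 + C A * X + C B : ℚ[X])
    rw [eval₂_add, eval₂_add, eval₂_mul, eval₂_pow, eval₂_X, eval₂_C, eval₂_C] at h1
    exact h1
  have hL : Module.finrank ℚ (AdjoinRoot (X ^ 3 + C A * X + C B : ℚ[X])) = 3 := by
    rw [(AdjoinRoot.powerBasis hirr.ne_zero).finrank, AdjoinRoot.powerBasis_dim, hdeg]
  have he : ∀ q : ℚ[X], aeval (AdjoinRoot.root (X ^ 3 + C A * X + C B : ℚ[X])) q =
      AdjoinRoot.mk (X ^ 3 + C A * X + C B : ℚ[X]) q := fun q => AdjoinRoot.aeval_eq q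
  obtain ⟨β, hβ⟩ := Pool.Agent.N187.PP.gb hgp3 hgp4 ℚ A B h6 hd hirr f hf.coc hf.two
  obtain ⟨h, hH, hn⟩ := Pool.Agent.N187.PP.gn hgp3 hgp4 ℚ A B h6 hd hirr f hf.coc hf.two β hβ
  obtain ⟨hn1, -⟩ := hn _ _ ht hL
  rw [he] at hn1
  have hcop : IsCoprime h (X ^ 3 + C A * X + C B) := by
    rw [isCoprime_comm, hirr.coprime_iff_not_dvd, ← AdjoinRoot.mk_eq_zero]
    exact hn1
  refine ⟨h, ⟨β, hβ, hH⟩, hcop, fun w => ?_, ?_⟩
  · exact hGLF ℚ (Comp (𝓞 ℚ) ℚ w) A B h6 hd f hf.coc hf.two β h hβ hH (hFARC ℚ A B hd w)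
      (hf.loc.fin w)
  · have key : ∀ i : Algebra ℚ ℝ, (letI := i; LocTriv (sW A B) ℝ (Sep ℝ) f) →
        @PLoc ℚ ℝ _ _ i A B h := by
      intro i hi
      exact @hGLF ℚ ℝ _ _ i A B h6 hd f hf.coc hf.two β h hβ hH (@hFARR ℚ _ i A B hd) hi
    have e : (algebraMap ℚ ℝ).toAlgebra = (inferInstance : Algebra ℚ ℝ) := Subsingleton.elim _ _
    have h1 := key _ (hf.loc.real (algebraMap ℚ ℝ))
    rw [e] at h1
    exact h1

end Pool.Agent.H415.AR458
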