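import Pool.Agent.H458.AR.Fld
import Pool.Graph.R_pool_sql_team_seeded_63374d34.N227.PQ.Det
import Pool.Graph.R_pool_sql_team_seeded_63374d34.N441.PQ.LB
import Pool.Graph.R_pool_sql_team_seeded_63374d34.N50.PQ.Maj
import Pool.Graph.R_pool_sql_team_seeded_63374d34.N945.PQ.RED

/-!
# Project AR (helper458), part LBR: from ramified classes to pairs of forms (helper415)
-/

set_option autoImplicit false
set_option linter.all false

open IsDedekindDomain NumberField Matrix Polynomial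
open scoped Classical

namespace Pool.Agent.H415.AR458

open Pool.Agent.N922.PQ
open Pool.Agent.N874.PP (Ev Sq1 U0)
open Pool.Agent.H458.AR
open Pool.Agent.N441.PQ (gram_change li_change cs_change)

/-- change of basis in the lattice -/
theorem sr_change {L : Type} [Field L] [CharZero L] (e e' : Fin 3 → L) (α : L)
    (W : Matrix (Fin 3) (Fin 3) ℤ) (hW : IsUnit W.det) (h : SR e α)
    (he : ∀ i, e' i = ∑ j, (W i j : L) * e j) : SR e' α := by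
  refine ⟨li_change e e' W hW h.li he, fun x => ?_⟩
  have key : ∀ c : Fin 3 → ℤ, ∑ i, (c i : L) * e' i = ∑ j, (((c ᵥ* W) j : ℤ) : L) * e j := by
    intro c
    simp only [he, Matrix.vecMul, dotProduct, Fin.sum_univ_three]
    push_cast
    ring
  rw [h.mem]
  constructor
  · rintro ⟨c, rfl⟩
    refine ⟨c ᵥ* W⁻¹, ?_⟩
    rw [key, Matrix.vecMul_vecMul, Matrix.nonsing_inv_mul _ hW, Matrix.vecMul_one]
  · rintro ⟨c, rfl⟩
    exact ⟨c ᵥ* W, key c⟩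

/-- the value of the form with Gram matrix `co i (e_k e_l / α)` -/
theorem co_sq {L : Type} [Field L] [CharZero L] (c : L →ₗ[ℚ] ℚ) (α : L) (e : Fin 3 → L)
    (M : Matrix (Fin 3) (Fin 3) ℤ) (hM : ∀ i j, (M i j : ℚ) = c (e i * e j / α))
    (ξ : Fin 3 → ℤ) : c ((∑ i, (ξ i : L) * e i) ^ 2 / α) = ((ξ ⬝ᵥ M *ᵥ ξ : ℤ) : ℚ) := by
  have h1 : (∑ i, (ξ i : L) * e i) ^ 2 / α =
      ∑ k, ∑ l, ((ξ k : ℚ) * (ξ l : ℚ)) • (e k * e l / α) := by
    rw [sq, Finset.sum_mul_sum, Finset.sum_div]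
    refine Finset.sum_congr rfl fun k _ => ?_
    rw [Finset.sum_div]
    refine Finset.sum_congr rfl fun l _ => ?_
    rw [Rat.smul_def]
    push_cast
    ring
  rw [h1]
  have h2 : ∀ k l, c (e k * e l / α) = (M k l : ℚ) := fun k l => (hM k l).symm
  simp only [map_sum, map_smul, h2, smul_eq_mul]
  simp only [dotProduct, Matrix.mulVec, Fin.sum_univ_three]
  push_cast
  ring

/-- from `TTV` to `TTM` -/
theorem ttm_of {L : Type} [Field L] [CharZero L] {a b : ℤ} {θ : L} (h : IsCub a b θ) (α : L)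
    (e : Fin 3 → L) (G B : Matrix (Fin 3) (Fin 3) ℤ)
    (hG : ∀ i j, (G i j : ℚ) = h.co 2 (e i * e j / α))
    (hB : ∀ i j, (B i j : ℚ) = h.co 1 (e i * e j / α)) (Q : ℤ) (hT : TTV Q θ e α) : TTM Q G B := by
  have key : ∀ ξ : Fin 3 → ℤ,
      (∃ v : Fin 3 → ℤ, Q ∣ v 1 ∧ Q ∣ v 2 ∧ Crd θ v ((∑ i, (ξ i : L) * e i) ^ 2 / α)) →
      Q ∣ ξ ⬝ᵥ G *ᵥ ξ ∧ Q ∣ ξ ⬝ᵥ B *ᵥ ξ := by
    rintro ξ ⟨v, h1, h2, h3⟩
    have h4 := co_sq (h.co 2) α e G hG ξ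
    have h5 := co_sq (h.co 1) α e B hB ξ
    obtain ⟨-, h6, h7⟩ := Pool.Agent.N227.PQ.co_crd h (v 0 : ℚ) (v 1 : ℚ) (v 2 : ℚ)
    have h8 : ((v 0 : ℚ) : L) + ((v 1 : ℚ) : L) * θ + ((v 2 : ℚ) : L) * θ ^ 2 =
        (∑ i, (ξ i : L) * e i) ^ 2 / α := by
      rw [h3]
      push_cast
      rfl
    rw [h8] at h6 h7
    rw [h7] at h4
    rw [h6] at h5
    have h4' : v 2 = ξ ⬝ᵥ G *ᵥ ξ := by exact_mod_cast h4
    have h5' : v 1 = ξ ⬝ᵥ B *ᵥ ξ := by exact_mod_cast h5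
    rw [← h4', ← h5']
    exact ⟨h2, h1⟩
  obtain ⟨ξ, ξ', h0, h1, h2⟩ := hT
  exact ⟨ξ, ξ', h0, (key ξ h1).1, (key ξ h1).2, (key ξ' h2).1, (key ξ' h2).2⟩

/-- reduction of a positive definite form of determinant `δ` -/
theorem red (H : Matrix (Fin 3) (Fin 3) ℝ) (hH : H.PosDef) (δ : ℝ) (hδ : 0 < δ)
    (hdet : H.det = δ) :
    ∃ (U : Matrix (Fin 3) (Fin 3) ℤ) (h : Fin 3 → ℝ), IsUnit U.det ∧ (∀ i, 0 < h i) ∧ Monotone h ∧
    (h 0 * h 1 * h 2) ^ 2 ≤ 64 * δ ∧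
    ∀ i, (fun j => (U i j : ℝ)) ⬝ᵥ H *ᵥ (fun j => (U i j : ℝ)) = h i ^ 2 := by
  obtain ⟨r, hr, hr6⟩ : ∃ r : ℝ, 0 < r ∧ r ^ 6 = δ := by
    refine ⟨δ ^ ((6 : ℕ) : ℝ)⁻¹, Real.rpow_pos_of_pos hδ _, Real.rpow_inv_natCast_pow hδ.le (by norm_num)⟩
  have hr2 : 0 < (r ^ 2)⁻¹ := by positivity
  obtain ⟨U, h, hU, hpos, hmono, hprod, hrow⟩ := Pool.Agent.N945.PQ.RED.main ((r ^ 2)⁻¹ • H)
    (hH.smul hr2) (by
      rw [Matrix.det_smul, hdet, Fintype.card_fin, ← hr6]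
      field_simp)
  refine ⟨U, fun i => r * h i, hU, fun i => mul_pos hr (hpos i),
    fun i j hij => mul_le_mul_of_nonneg_left (hmono hij) hr.le, ?_, fun i => ?_⟩
  · have h1 : (r * h 0) * (r * h 1) * (r * h 2) = r ^ 3 * (h 0 * h 1 * h 2) := by ring
    have h0 : 0 < h 0 * h 1 * h 2 := mul_pos (mul_pos (hpos 0) (hpos 1)) (hpos 2)
    show ((r * h 0) * (r * h 1) * (r * h 2)) ^ 2 ≤ 64 * δ
    rw [h1, mul_pow, ← hr6]
    have h2 : (h 0 * h 1 * h 2) ^ 2 ≤ 64 := by nlinarith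
    have h3 : (r ^ 3) ^ 2 = r ^ 6 := by ring
    rw [h3]
    have h4 : 0 < r ^ 6 := by positivity
    nlinarith
  · have h1 := hrow i
    rw [Matrix.smul_mulVec, dotProduct_smul, smul_eq_mul] at h1
    show _ = (r * h i) ^ 2
    rw [mul_pow, ← h1]
    field_simp

theorem lbr (h1 : S_SRE) (h2 : S_SRG) (h3 : S_CHR) (h4 : S_TVR) : S_LBR := by
  intro L O _ _ _ _ _ _ _ a b θ X S T s A B h hS hF Zr Z hZr hZ α hα hsq hev hsq1 hani
  obtain ⟨D, hD⟩ : ∃ D : ℤ, D = ∏ Q ∈ Zr, Q := ⟨_, rfl⟩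
  have hD1 : 1 ≤ D := by
    have : 0 < D := by
      rw [hD]
      exact Finset.prod_pos fun Q hQ => (hS Q (hZ (hZr hQ))).1.1
    omega
  have hD0 : D ≠ 0 := by omega
  have hov : ∀ 𝔓 : HeightOneSpectrum O, ¬ Ev 𝔓 α → Ov D 𝔓 := by
    intro 𝔓 h𝔓
    obtain ⟨Q, hQ, hQ𝔓⟩ := hev 𝔓 h𝔓
    obtain ⟨k, hk⟩ : Q ∣ D := by
      rw [hD]
      exact Finset.dvd_prod_of_mem _ hQ
    show (D : O) ∈ 𝔓.asIdeal
    rw [hk]
    push_cast
    exact Ideal.mul_mem_right _ _ hQ𝔓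
  obtain ⟨e, he⟩ := h1 L O h.rank α hα
  obtain ⟨G0, G0', B0, hG0s, hB0s, hG0, hB0, hGG0⟩ := h2 L O a b θ h hF.sq α e hα he D hD0 hov
  have hnorm : 0 < Algebra.norm ℚ α := by
    obtain ⟨r, hr⟩ := hsq
    have hr0 : r ≠ 0 := by
      rintro rfl
      rw [mul_zero] at hr
      exact hα (Algebra.norm_eq_zero_iff.1 hr)
    rw [hr]
    exact mul_self_pos.2 hr0
  obtain ⟨H, hH, hHdet, hC2, hC1, -⟩ := Pool.Agent.N50.PQ.Maj.maj L a b θ h X hF.pa hF.da hF.db α e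
    hα hnorm he.li
  have hofG : (Matrix.of fun i j => h.co 2 (e i * e j / α)) = G0.map (Int.castRingHom ℚ) := by
    ext i j
    rw [Matrix.of_apply, Matrix.map_apply, ← hG0 i j]
    rfl
  -- the determinant
  have hdd : G0.det * G0'.det = D ^ 3 := by
    rw [← Matrix.det_mul, hGG0, Matrix.det_smul, Matrix.det_one, mul_one, Fintype.card_fin]
  have hG0d : G0.det ≠ 0 := by
    intro h5
    rw [h5, zero_mul] at hdd
    exact pow_ne_zero 3 hD0 hdd.symm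
  have hG0d' : G0'.det ≠ 0 := by
    intro h5
    rw [h5, mul_zero] at hdd
    exact pow_ne_zero 3 hD0 hdd.symm
  have hδ1 : 1 ≤ |G0.det| := Int.one_le_abs hG0d
  have hδD : |G0.det| ≤ D ^ 3 := by
    have h5 : |G0.det| * |G0'.det| = D ^ 3 := by
      rw [← abs_mul, hdd, abs_of_nonneg (by positivity)]
    have h6 : 1 ≤ |G0'.det| := Int.one_le_abs hG0d'
    nlinarith
  have hHd : H.det = ((|G0.det| : ℤ) : ℝ) := by
    rw [hHdet, hofG, ← RingHom.mapMatrix_apply, ← RingHom.map_det]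
    simp
  have hδpos : (0 : ℝ) < ((|G0.det| : ℤ) : ℝ) := by exact_mod_cast (by omega : 0 < |G0.det|)
  obtain ⟨U, hh, hU, hpos, hmono, hprod, hrow⟩ := red H hH _ hδpos hHd
  obtain ⟨e', he'⟩ : ∃ e' : Fin 3 → L, ∀ i, e' i = ∑ j, (U i j : L) * e j :=
    ⟨fun i => ∑ j, (U i j : L) * e j, fun i => rfl⟩
  have hSR : SR e' α := sr_change e e' α U hU he he'
  obtain ⟨G, G', B1, hGs, hBs, hG, hB, hGG⟩ := h2 L O a b θ h hF.sq α e' hα hSR D hD0 hov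
  have hGU : G = U * G0 * Uᵀ := by
    ext i j
    have h5 := gram_change (h.co 2) α e e' G0 U hG0 he' i j
    rw [← hG i j] at h5
    exact_mod_cast h5
  have hBU : B1 = U * B0 * Uᵀ := by
    ext i j
    have h5 := gram_change (h.co 1) α e e' B0 U hB0 he' i j
    rw [← hB i j] at h5
    exact_mod_cast h5
  have hGb : ∀ i j, |(G i j : ℝ)| ≤ hh i * hh j := by
    intro i j
    have h8 := cs_change G0 U (fun i j => h.co 2 (e i * e j / α)) hG0 H hh hpos hrow 1 zero_le_one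
      (fun u v => by rw [one_pow, one_mul]; exact hC2 u v) i j
    rw [one_mul, ← hGU] at h8
    exact h8
  have hBb : ∀ i j, |(B1 i j : ℝ)| ≤ (2 * X) * (hh i * hh j) := by
    intro i j
    have h8 := cs_change B0 U (fun i j => h.co 1 (e i * e j / α)) hB0 H hh hpos hrow (2 * X)
      (by positivity) hC1 i j
    rw [← hBU] at h8
    exact h8
  -- the first entry does not vanish
  have hG00 : G 0 0 ≠ 0 := by
    intro h5
    have h6 := hG 0 0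
    rw [h5, ← sq] at h6
    exact hani (e' 0) (hSR.li.ne_zero 0) (by rw [← h6]; simp)
  have hh0 : 1 ≤ hh 0 := by
    have h5 : (1 : ℝ) ≤ |(G 0 0 : ℝ)| := by exact_mod_cast Int.one_le_abs hG00
    have h6 := h5.trans (hGb 0 0)
    have h7 := hpos 0
    nlinarith
  have hle1 : 1 ≤ hh 1 := hh0.trans (hmono (by decide))
  have hle2 : 1 ≤ hh 2 := hh0.trans (hmono (by decide))
  have hle : ∀ i, hh i ≤ hh 0 * hh 1 * hh 2 := by
    have h5 : hh 2 ≤ hh 0 * hh 1 * hh 2 := by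
      have h6 : 1 ≤ hh 0 * hh 1 := by nlinarith
      nlinarith
    intro i
    refine le_trans (hmono ?_) h5
    fin_cases i <;> decide
  have hpp : ∀ i j, hh i * hh j ≤ 64 * (D : ℝ) ^ 4 := by
    intro i j
    have h5 : hh i * hh j ≤ (hh 0 * hh 1 * hh 2) * (hh 0 * hh 1 * hh 2) :=
      mul_le_mul (hle i) (hle j) (hpos j).le ((hpos i).le.trans (hle i))
    have h6 : ((|G0.det| : ℤ) : ℝ) ≤ (D : ℝ) ^ 3 := by exact_mod_cast hδD
    have h7 : (1 : ℝ) ≤ D := by exact_mod_cast hD1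
    have h8 : (D : ℝ) ^ 3 ≤ (D : ℝ) ^ 4 := pow_le_pow_right₀ h7 (by norm_num)
    nlinarith
  rw [← hD]
  refine ⟨G, G', B1, hGs, hGG, fun i j => ?_, hBs, fun i j => ?_, ?_, fun Q hQ => ?_,
    fun Q hQ => ?_, fun Q hQ => ?_⟩
  · have h5 := (hGb i j).trans (hpp i j)
    exact_mod_cast h5
  · have h5 : |(B1 i j : ℝ)| ≤ 128 * (D : ℝ) ^ 4 * X := by
      refine (hBb i j).trans ?_
      have h6 := hpp i j
      have h7 : (0 : ℝ) ≤ X := Nat.cast_nonneg _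
      nlinarith
    exact_mod_cast h5
  · exact h3 L a b θ h α e' hα hSR.li G B1 hG hB
  · exact hF.ra Q (Finset.mem_sdiff.1 hQ).1
  · exact hF.rb Q (Finset.mem_sdiff.1 hQ).1
  · obtain ⟨hQS, hQZ⟩ := Finset.mem_sdiff.1 hQ
    obtain ⟨hQp, hQ8, -⟩ := hS Q hQS
    refine ttm_of h α e' G B1 hG hB Q (h4 L O a b θ h hF.sq α e' hα hSR Q hQp.2
      (not_dvd_two hQ8 hQp.1 hQp.2) (hF.rb Q hQS) (fam_ns hS hF hQS) ?_ (hsq1 Q hQ))
    intro 𝔓 h𝔓
    by_contra h5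
    obtain ⟨Q', hQ', h6⟩ := hev 𝔓 h5
    have h7 := below_unique hQp (hS Q' (hZ (hZr hQ'))).1 h𝔓 h6
    rw [h7] at hQZ
    exact hQZ (hZr hQ')

end Pool.Agent.H415.AR458
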